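import Pool.Agent.P8H94.GP.Rep
import Pool.Agent.P8H64.GP.Stm3

/-!
# Package REPB of project GP (helper57, after REP of helper94)
-/

set_option autoImplicit false

namespace Pool.Agent.P8H57.GP

open MeasureTheory ProbabilityTheory Pool.Agent.P8H64.GP Pool.Agent.P8H94.GP

/-- A centred Gaussian law with covariance `U Uᵀ` is the law of `U W`. -/
theorem rep_of_factor (d r : ℕ) (μ : Measure (Fin d → ℝ)) (hμ : IsGaussian μ) (h0 : ∫ x, x ∂μ = 0)
    (U : Matrix (Fin d) (Fin r) ℝ) (hU : ∀ i j, ∫ x, x i * x j ∂μ = ∑ k, U i k * U j k) :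
    μ = (gr r).map (fun w => U.mulVec w) := by
  classical
  obtain ⟨A, hA⟩ : ∃ A : (Fin r → ℝ) →L[ℝ] (Fin d → ℝ),
    A = (Matrix.mulVecLin U).toContinuousLinearMap := ⟨_, rfl⟩
  have hAU : (fun w => U.mulVec w) = A := by
    rw [hA]; rfl
  rw [hAU]
  have : IsProbabilityMeasure ((gr r).map A) :=
    Measure.isProbabilityMeasure_map (by fun_prop)
  apply Measure.ext_of_charFunDual
  ext L
  have hL : ∀ x : Fin d → ℝ, L x = ∑ i, L (Pi.single i 1) * x i := by
    intro x
    have h1 : x = ∑ i, x i • (Pi.single i (1 : ℝ) : Fin d → ℝ) := by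
      ext j
      simp [Finset.sum_apply, Pi.single_apply]
    conv_lhs => rw [h1]
    rw [map_sum]
    refine Finset.sum_congr rfl fun i _ => ?_
    rw [map_smul, smul_eq_mul, mul_comm]
  rw [IsGaussian.charFunDual_eq_of_integral_eq_zero h0, charFunDual_map, charFunDual_pi]
  have hvar : Var[L; μ] = ∑ k, (∑ i, L (Pi.single i 1) * U i k) ^ 2 := by
    have hm : μ[L] = 0 := by rw [IsGaussian.integral_dual, h0, map_zero]
    rw [variance_of_integral_eq_zero (by fun_prop) hm]
    obtain ⟨c, hc⟩ : ∃ c : Fin d → ℝ, c = fun i => L (Pi.single i 1) := ⟨_, rfl⟩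
    have h2 : ∀ x : Fin d → ℝ, L x ^ 2 = (∑ i, c i * x i) ^ 2 := fun x => by rw [hL x, hc]
    rw [integral_congr_ae (Filter.Eventually.of_forall h2), cov_quad]
    have h1 : ∀ i j, ∫ x, x i * x j ∂μ = ∑ k, U i k * U j k := hU
    have h3 : ∀ i, L (Pi.single i 1) = c i := fun i => by rw [hc]
    simp_rw [h1, h3, pow_two, Finset.sum_mul_sum, Finset.mul_sum]
    rw [Finset.sum_comm]
    conv_rhs => rw [Finset.sum_comm]
    rw [Finset.sum_comm]
    refine Finset.sum_congr rfl fun i _ => ?_
    rw [Finset.sum_comm]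
    refine Finset.sum_congr rfl fun k _ => Finset.sum_congr rfl fun j _ => ?_
    ring
  rw [hvar]
  have hc : ∀ k, charFunDual (gaussianReal 0 1) ((L.comp A).comp (.single ℝ (fun _ => ℝ) k)) =
      Complex.exp (-((∑ i, L (Pi.single i 1) * U i k : ℝ) : ℂ) ^ 2 / 2) := by
    intro k
    obtain ⟨T, hT⟩ : ∃ T : StrongDual ℝ ℝ, T = (L.comp A).comp (.single ℝ (fun _ => ℝ) k) := ⟨_, rfl⟩
    have hT1 : T 1 = ∑ i, L (Pi.single i 1) * U i k := by
      rw [hT]
      have h4 : A (Pi.single k 1) = fun i => U i k := by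
        rw [hA]
        ext i
        simp
      rw [ContinuousLinearMap.comp_apply, ContinuousLinearMap.comp_apply]
      have h5 : (ContinuousLinearMap.single ℝ (fun _ => ℝ) k) (1 : ℝ) = Pi.single k (1 : ℝ) := rfl
      rw [h5, h4, hL]
    have hTv : ∀ v : ℝ, T v = T 1 * v := by
      intro v
      have : T v = T (v • (1 : ℝ)) := by rw [smul_eq_mul, mul_one]
      rw [this, map_smul, smul_eq_mul, mul_comm]
    rw [← hT, ← hT1, charFunDual_apply]
    have h6 := charFun_gaussianReal (μ := 0) (v := 1) (T 1)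
    rw [charFun_apply_real] at h6
    have h7 : ∀ v : ℝ, Complex.exp ((T v : ℂ) * Complex.I) = Complex.exp ((T 1 : ℂ) * v * Complex.I) := by
      intro v
      rw [hTv v]
      push_cast
      rfl
    simp_rw [h7]
    rw [h6]
    congr 1
    push_cast
    simp
    ring
  rw [Finset.prod_congr rfl (fun k _ => hc k), ← Complex.exp_sum]
  congr 1
  push_cast
  rw [← Finset.sum_div, Finset.sum_neg_distrib]

/-- REPB -/
theorem repb : S_REPB := by
  classical
  intro d μ hμ h0 S' hS' hS''
  obtain ⟨U', hU'⟩ := exists_factor hS'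
  obtain ⟨U'', hU''⟩ := exists_factor hS''
  refine ⟨((Matrix.of fun i j : Fin d => ∫ x, x i * x j ∂μ) - S').rank,
    Matrix.of fun i => Fin.append (U' i) (U'' i), ?_, ?_, ?_⟩
  · refine rep_of_factor d _ μ hμ h0 _ ?_
    intro i j
    rw [Fin.sum_univ_add]
    simp only [Matrix.of_apply, Fin.append_left, Fin.append_right]
    rw [← hU', ← hU'', Matrix.sub_apply, Matrix.of_apply]
    ring
  · intro i
    rw [Fin.sum_univ_add]
    simp only [Matrix.of_apply, Fin.append_left, Fin.append_right, pow_two]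
    rw [← hU', ← hU'', Matrix.sub_apply, Matrix.of_apply]
    ring
  · intro i
    simp only [Matrix.of_apply, Fin.append_left, pow_two]
    exact hU' i i

end Pool.Agent.P8H57.GP
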